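import Pool.Agent.Helper60.NK.Upper
import Pool.Agent.Helper43.NK.Defs

/-!
# (C5): the deterministic pushdown program for the result of NK
-/

set_option autoImplicit false

namespace Pool.Agent.Helper60.NK

open Pool.Agent.Helper19.NF Pool.Agent.Helper99.NQ

/-- The deterministic pushdown program which reads single symbols computes `out` of the row `R + 1`. -/
theorem upper_out {n D m : ℕ} [NeZero m] {F B : Type} [Field F] [Fintype F] [AddCommGroup B] [Module F B] [Fintype B]
    (g : Fin D → Equiv.Perm (Fin n)) (x0 : Fin n × Fin m → B) (R : ℕ) (hn : 0 < n)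
    (hB : (R + 2) * (n * m) ≤ Fintype.card B) (hB2 : 2 ≤ Fintype.card B) (hD : D * m ≤ Fintype.card B)
    (h9 : 9 ≤ D * m) :
    ∃ (Q Γ : Type) (_ : Finite Q) (_ : Finite Γ) (P : PProg (B × Word D m B) F F Q Γ),
      Nat.card Q ≤ Nat.card (B × Word D m B) ^ 3 ∧ Nat.card Γ ≤ Nat.card (B × Word D m B) ∧
      ∀ I, P.Outputs I (Pool.Agent.Helper43.NK.out g x0 (R + 1) I) ∧
        Nat.card {x // P.Asks I x} ≤ (R + 2) * (n * m) * Nat.card (Word D m B) :=
  upper g x0 R hn hB hB2 hD h9

end Pool.Agent.Helper60.NK
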