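import Pool.Agent.Helper99.NQ.Defs

/-!
# A pushdown program over cells becomes a pushdown program over symbols, with a general content of a cell

The content of the cell `b` is the sum over all `l : V` of `φ (I (b, l)) l`, in an additive monoid `A`.
-/

set_option autoImplicit false

namespace Pool.Agent.Helper60.NK

open Pool.Agent.Helper19.NF

section wrap

variable {F B A V Z Q Γ : Type} [AddCommMonoid A] {L : ℕ}

/-- The content of the cell `b`. -/
def tabA [Fintype V] (φ : F → V → A) (I : B × V → F) (b : B) : A := ∑ l, φ (I (b, l)) l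

/-- The program which reads the block of a cell symbol by symbol and adds up the content. -/
def wrapA (φ : F → V → A) (hL : 0 < L) (e : Fin L ≃ V) (P : PProg B A Z Q Γ) :
    PProg (B × V) F Z (Q × Fin L × A) Γ where
  start := (P.start, ⟨0, hL⟩, 0)
  act := fun x => match P.act x.1 with
    | .ask b nx => .ask (b, e x.2.1) (fun y =>
        if h : x.2.1.val + 1 < L then (x.1, ⟨x.2.1.val + 1, h⟩, x.2.2 + φ y (e x.2.1))
        else (nx (x.2.2 + φ y (e x.2.1)), ⟨0, hL⟩, 0))
    | .push s q => .push s (q, ⟨0, hL⟩, 0)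
    | .pop nx => .pop (fun s => (nx s, ⟨0, hL⟩, 0))
    | .out z => .out z

variable (φ : F → V → A) (hL : 0 < L) (e : Fin L ≃ V) (P : PProg B A Z Q Γ)

/-- The contribution number `i`. -/
def ctA (I : B × V → F) (b : B) (i : ℕ) : A :=
  if h : i < L then φ (I (b, e ⟨i, h⟩)) (e ⟨i, h⟩) else 0

theorem sum_ctA [Fintype V] (I : B × V → F) (b : B) :
    ∑ i ∈ Finset.range L, ctA φ e I b i = tabA φ I b := by
  classical
  rw [Finset.sum_range]
  unfold tabA
  rw [← e.sum_comp]
  refine Finset.sum_congr rfl fun i _ => ?_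
  unfold ctA
  rw [dif_pos i.2]

/-- The configurations which occur. -/
def InvA (I : B × V → F) (c : Q × List Γ) (x : (Q × Fin L × A) × List Γ) : Prop :=
  x.1.1 = c.1 ∧ x.2 = c.2 ∧
    match P.act c.1 with
    | .ask b _ => x.1.2.2 = ∑ i ∈ Finset.range x.1.2.1, ctA φ e I b i
    | _ => x.1.2.1.val = 0 ∧ x.1.2.2 = 0

variable {P}

theorem inv_zeroA (I : B × V → F) (c : Q × List Γ) :
    InvA φ e P I c ((c.1, ⟨0, hL⟩, 0), c.2) := by
  refine ⟨rfl, rfl, ?_⟩
  rcases P.act c.1 with ⟨b, nx⟩ | ⟨s, q⟩ | nx | z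
  · simp
  · exact ⟨rfl, rfl⟩
  · exact ⟨rfl, rfl⟩
  · exact ⟨rfl, rfl⟩

/-- One step of the new program is no step or one step of the old one. -/
theorem inv_stepA [Fintype V] (I : B × V → F) {c : Q × List Γ}
    {x : (Q × Fin L × A) × List Γ} (h : InvA φ e P I c x) :
    (InvA φ e P I c ((wrapA φ hL e P).step I x) ∧
      ((wrapA φ hL e P).step I x).1.2.1.val = x.1.2.1.val + 1) ∨
      (wrapA φ hL e P).step I x =
        (((P.step (tabA φ I) c).1, ⟨0, hL⟩, 0), (P.step (tabA φ I) c).2) := by
  obtain ⟨⟨q, j, s⟩, st⟩ := x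
  obtain ⟨q', st'⟩ := c
  obtain ⟨h1, h2, h3⟩ := h
  simp only at h1 h2
  subst h1
  subst h2
  unfold PProg.step wrapA
  simp only
  simp only at h3
  rcases hact : P.act q with ⟨b, nx⟩ | ⟨s', q'⟩ | nx | z
  · simp only [hact] at h3 ⊢
    by_cases hj : j.val + 1 < L
    · left
      rw [dif_pos hj]
      refine ⟨⟨rfl, rfl, ?_⟩, rfl⟩
      simp only [hact]
      rw [Finset.sum_range_succ, ← h3]
      congr 1
      unfold ctA
      rw [dif_pos j.2]
    · right
      rw [dif_neg hj]
      have h4 : s + φ (I (b, e j)) (e j) = tabA φ I b := by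
        rw [← sum_ctA φ e I b]
        obtain ⟨r, hr⟩ : ∃ r, L = r + 1 := ⟨L - 1, by omega⟩
        have h5 : j.val = r := by
          have := j.2
          omega
        have h6 : Finset.range L = Finset.range (j.val + 1) := by rw [h5, hr]
        rw [h6, Finset.sum_range_succ, ← h3]
        congr 1
        unfold ctA
        rw [dif_pos j.2]
      rw [h4]
  · right
    simp only
  · right
    simp only
    rcases st with _ | ⟨s', st⟩
    · simp only [hact] at h3
      have h4 : j = ⟨0, hL⟩ := Fin.ext h3.1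
      rw [h4, h3.2]
    · rfl
  · right
    simp only [hact] at h3 ⊢
    have h4 : j = ⟨0, hL⟩ := Fin.ext h3.1
    rw [h4, h3.2]

/-- Every configuration of the new program belongs to a configuration of the old one. -/
theorem inv_allA [Fintype V] (I : B × V → F) (t : ℕ) :
    ∃ r, InvA φ e P I (P.conf (tabA φ I) r) ((wrapA φ hL e P).conf I t) := by
  induction t with
  | zero => exact ⟨0, inv_zeroA φ hL e I (P.start, [])⟩
  | succ t ih =>
    obtain ⟨r, hr⟩ := ih
    have h1 : (wrapA φ hL e P).conf I (t + 1) =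
        (wrapA φ hL e P).step I ((wrapA φ hL e P).conf I t) :=
      Function.iterate_succ_apply' _ _ _
    rcases inv_stepA φ hL e I hr with h2 | h2
    · exact ⟨r, by rw [h1]; exact h2.1⟩
    · refine ⟨r + 1, ?_⟩
      have h3 : P.conf (tabA φ I) (r + 1) = P.step (tabA φ I) (P.conf (tabA φ I) r) :=
        Function.iterate_succ_apply' _ _ _
      rw [h1, h2, h3]
      exact inv_zeroA φ hL e I _

/-- The new program finishes every step of the old one. -/
theorem reach_stepA [Fintype V] (I : B × V → F) (c : Q × List Γ) :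
    ∀ (r : ℕ) (x : (Q × Fin L × A) × List Γ),
      InvA φ e P I c x → L ≤ x.1.2.1.val + r →
      ∃ t, ((wrapA φ hL e P).step I)^[t] x =
        (((P.step (tabA φ I) c).1, ⟨0, hL⟩, 0), (P.step (tabA φ I) c).2) := by
  intro r
  induction r with
  | zero =>
    intro x _ hr
    have := x.1.2.1.2
    omega
  | succ r ih =>
    intro x hx hr
    rcases inv_stepA φ hL e I hx with h2 | h2
    · obtain ⟨t, ht⟩ := ih _ h2.1 (by omega)
      exact ⟨t + 1, by rw [Function.iterate_succ_apply]; exact ht⟩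
    · exact ⟨1, h2⟩

theorem reach_allA [Fintype V] (I : B × V → F) (r : ℕ) :
    ∃ t, (wrapA φ hL e P).conf I t =
      (((P.conf (tabA φ I) r).1, ⟨0, hL⟩, 0), (P.conf (tabA φ I) r).2) := by
  induction r with
  | zero => exact ⟨0, rfl⟩
  | succ r ih =>
    obtain ⟨t, ht⟩ := ih
    obtain ⟨t', ht'⟩ := reach_stepA φ hL e I (P.conf (tabA φ I) r) L
      (((P.conf (tabA φ I) r).1, ⟨0, hL⟩, 0), (P.conf (tabA φ I) r).2)
      (inv_zeroA φ hL e I _) (by omega)
    refine ⟨t' + t, ?_⟩
    unfold PProg.conf at ht ht' ⊢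
    rw [Function.iterate_add_apply, ht, ht', ← Function.iterate_succ_apply' (P.step (tabA φ I))]

/-- The new program has the same result. -/
theorem wrapA_outputs [Fintype V] (I : B × V → F) {z : Z}
    (h : P.Outputs (tabA φ I) z) : (wrapA φ hL e P).Outputs I z := by
  obtain ⟨r, hr⟩ := h
  obtain ⟨t, ht⟩ := reach_allA φ hL e I r
  refine ⟨t, ?_⟩
  rw [ht]
  show (match P.act (P.conf (tabA φ I) r).1 with
    | .ask b nx => _
    | .push s q => _
    | .pop nx => _
    | .out z => _) = _
  rw [hr]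

/-- The new program queries only symbols of cells which the old one queries. -/
theorem wrapA_asks [Fintype V] (I : B × V → F) {x : B × V}
    (h : (wrapA φ hL e P).Asks I x) : P.Asks (tabA φ I) x.1 := by
  obtain ⟨b, l⟩ := x
  obtain ⟨t, nx, ht⟩ := h
  obtain ⟨r, h1, -, -⟩ := inv_allA φ hL e I t
  have h2 : (match P.act ((wrapA φ hL e P).conf I t).1.1 with
    | .ask b nx => PAct.ask (b, e ((wrapA φ hL e P).conf I t).1.2.1) (fun y =>
        if h : ((wrapA φ hL e P).conf I t).1.2.1.val + 1 < L then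
          (((wrapA φ hL e P).conf I t).1.1, ⟨((wrapA φ hL e P).conf I t).1.2.1.val + 1, h⟩,
            ((wrapA φ hL e P).conf I t).1.2.2 + φ y (e ((wrapA φ hL e P).conf I t).1.2.1))
        else (nx (((wrapA φ hL e P).conf I t).1.2.2 + φ y (e ((wrapA φ hL e P).conf I t).1.2.1)),
          ⟨0, hL⟩, 0))
    | .push s q => .push s (q, ⟨0, hL⟩, 0)
    | .pop nx => .pop (fun s => (nx s, ⟨0, hL⟩, 0))
    | .out z => .out z) = PAct.ask (b, l) nx := ht
  rw [h1] at h2
  rcases hact : P.act (P.conf (tabA φ I) r).1 with ⟨b', nx'⟩ | ⟨s, q⟩ | nx' | z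
  · rw [hact] at h2
    simp only [PAct.ask.injEq, Prod.mk.injEq] at h2
    obtain ⟨⟨rfl, -⟩, -⟩ := h2
    exact ⟨r, nx', hact⟩
  · rw [hact] at h2
    cases h2
  · rw [hact] at h2
    cases h2
  · rw [hact] at h2
    cases h2

end wrap

/-- A pushdown program over cells with the content `∑ l, φ (I (b, l)) l` becomes one over symbols. -/
theorem symbols_of_contents {F B A V Z Q Γ : Type} [AddCommMonoid A] [Finite A] [Fintype V] [Nonempty V]
    [Finite Q] (φ : F → V → A) (P : PProg B A Z Q Γ) :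
    ∃ (Q' : Type) (_ : Finite Q') (P' : PProg (B × V) F Z Q' Γ),
      Nat.card Q' = Nat.card Q * (Nat.card V * Nat.card A) ∧
      ∀ I : B × V → F, (∀ z, P.Outputs (tabA φ I) z → P'.Outputs I z) ∧
        ∀ x, P'.Asks I x → P.Asks (tabA φ I) x.1 := by
  classical
  have hL : 0 < Fintype.card V := Fintype.card_pos
  let e : Fin (Fintype.card V) ≃ V := (Fintype.equivFin _).symm
  refine ⟨Q × Fin (Fintype.card V) × A, inferInstance, wrapA φ hL e P, ?_,
    fun I => ⟨fun z hz => wrapA_outputs φ hL e I hz, fun x hx => wrapA_asks φ hL e I hx⟩⟩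
  rw [Nat.card_prod, Nat.card_prod, Nat.card_eq_fintype_card (α := Fin _), Fintype.card_fin,
    Nat.card_eq_fintype_card (α := V)]

end Pool.Agent.Helper60.NK
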