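import Pool.Agent.Helper60.NK.Sym
import Pool.Agent.Helper60.PH.Push

/-!
# The deterministic pushdown program for the sum of the symbols at the place `0`
-/

set_option autoImplicit false

namespace Pool.Agent.Helper60.NK

open Finset Pool.Agent.Helper19.NF Pool.Agent.Helper74.NW Pool.Agent.Helper99.NQ
open Pool.Agent.Helper74.NE (fine fine_apply)

section

variable {D m : ℕ} {F B : Type} [Field F] [AddCommGroup B] [Module F B] [Fintype B]

open Classical in
/-- The contribution of one symbol to the content of a cell. -/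
noncomputable def cont (y : F) (l : Word D m B) : Word D m B × F := (y • l, if l = 0 then y else 0)

theorem tabA_cont (I : B × Word D m B → F) (b : B) :
    tabA (cont (D := D) (m := m) (B := B) (F := F)) I b = (tab I b, I (b, 0)) := by
  classical
  unfold tabA cont
  refine Prod.ext ?_ ?_
  · rw [Prod.fst_sum]
    unfold tab word
    exact Finset.sum_congr (by congr 1) fun _ _ => rfl
  · rw [Prod.snd_sum]
    simp only
    rw [Finset.sum_eq_single (0 : Word D m B)]
    · rw [if_pos rfl]
    · intro l _ hl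
      rw [if_neg hl]
    · intro h
      exact absurd (Finset.mem_univ _) h

end

/-- The deterministic pushdown program which reads single symbols. -/
theorem upper {n D m : ℕ} [NeZero m] {F B : Type} [Field F] [Fintype F] [AddCommGroup B] [Module F B] [Fintype B]
    (g : Fin D → Equiv.Perm (Fin n)) (x0 : Fin n × Fin m → B) (R : ℕ) (hn : 0 < n)
    (hB : (R + 2) * (n * m) ≤ Fintype.card B) (hB2 : 2 ≤ Fintype.card B) (hD : D * m ≤ Fintype.card B)
    (h9 : 9 ≤ D * m) :
    ∃ (Q Γ : Type) (_ : Finite Q) (_ : Finite Γ) (P : PProg (B × Word D m B) F F Q Γ),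
      Nat.card Q ≤ Nat.card (B × Word D m B) ^ 3 ∧ Nat.card Γ ≤ Nat.card (B × Word D m B) ∧
      ∀ I, P.Outputs I (∑ v, I (val (fine g) x0 (tab I) (R + 1) v, 0)) ∧
        Nat.card {x // P.Asks I x} ≤ (R + 2) * (n * m) * Nat.card (Word D m B) := by
  classical
  have hDp : 1 ≤ D := by
    rcases Nat.eq_zero_or_pos D with h | h
    · rw [h, zero_mul] at h9
      omega
    · exact h
  have hDD : Fintype.card (Fin D × Fin m) = D * m := by rw [Fintype.card_prod, Fintype.card_fin, Fintype.card_fin]
  obtain ⟨Q, Γ, hQ, hΓ, P, h1, h2, h3⟩ := Pool.Agent.Helper60.PH.pushdown_program1 (G := F) g x0 R hDp hn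
  obtain ⟨Q', hQ', P', h4, h5⟩ := symbols_of_contents (V := Word D m B) (F := F)
    (cont (D := D) (m := m) (B := B) (F := F)) P
  have hq : Fintype.card F ≤ Fintype.card B := by
    have hnt : Nontrivial B := Fintype.one_lt_card_iff_nontrivial.1 (by omega)
    obtain ⟨b, hb⟩ := exists_ne (0 : B)
    exact Fintype.card_le_of_injective (fun y : F => y • b) (smul_left_injective F hb)
  set k := Fintype.card B with hk
  have hL : Nat.card (Word D m B) = k ^ (D * m) := by
    rw [Nat.card_eq_fintype_card, Fintype.card_fun, hDD]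
  have hN : Nat.card (B × Word D m B) = k * k ^ (D * m) := by
    rw [Nat.card_prod, hL, Nat.card_eq_fintype_card]
  have hk1 : 1 ≤ k := by omega
  have hkL : k ^ 9 ≤ k ^ (D * m) := Nat.pow_le_pow_right hk1 h9
  have hA : Nat.card (Word D m B × F) ≤ k ^ (D * m) * k := by
    rw [Nat.card_prod, hL, Nat.card_eq_fintype_card (α := F)]
    exact Nat.mul_le_mul_left _ hq
  have hX : (R + 2) * (n * m) * (D * m) ≤ k * k := Nat.mul_le_mul hB hD
  refine ⟨Q', Γ, hQ', hΓ, P', ?_, ?_, fun I => ?_⟩
  · rw [hN, h4, hL]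
    have h6 : Nat.card Q ≤ k ^ 7 := by
      refine h1.trans ?_
      calc 4 * ((R + 2) * (n * m) * (D * m)) * (k ^ 2 * Fintype.card F) ≤ k ^ 2 * (k * k) * (k ^ 2 * k) := by
            have : 4 ≤ k ^ 2 := by nlinarith
            gcongr
        _ = k ^ 7 := by ring
    calc Nat.card Q * (k ^ (D * m) * Nat.card (Word D m B × F)) ≤
          k ^ 7 * (k ^ (D * m) * (k ^ (D * m) * k)) := by gcongr
      _ = k ^ 8 * (k ^ (D * m) * k ^ (D * m)) := by ring
      _ ≤ k ^ 9 * (k ^ (D * m) * k ^ (D * m)) := Nat.mul_le_mul_right _ (Nat.pow_le_pow_right hk1 (by norm_num))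
      _ ≤ k ^ (D * m) * (k ^ (D * m) * k ^ (D * m)) := Nat.mul_le_mul_right _ hkL
      _ = 1 * (k ^ (D * m)) ^ 3 := by ring
      _ ≤ k ^ 3 * (k ^ (D * m)) ^ 3 := Nat.mul_le_mul_right _ (Nat.one_le_pow _ _ hk1)
      _ = (k * k ^ (D * m)) ^ 3 := by ring
  · rw [hN]
    refine h2.trans ?_
    calc (R + 2) * (n * m) * (D * m) * (k * Fintype.card F) ≤ k * k * (k * k) := by gcongr
      _ = k ^ 4 := by ring
      _ ≤ k ^ 9 := Nat.pow_le_pow_right hk1 (by norm_num)
      _ ≤ k ^ (D * m) := hkL
      _ ≤ k * k ^ (D * m) := Nat.le_mul_of_pos_left _ hk1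
  · have e1 : (tabA (cont (D := D) (m := m) (B := B) (F := F)) I) = fun b => (tab I b, I (b, 0)) := by
      funext b
      exact tabA_cont I b
    have h7 := h3 (fun b => (tab I b, I (b, 0)))
    have h8 := h5 I
    rw [e1] at h8
    refine ⟨h8.1 _ h7.1, ?_⟩
    have h6 : Nat.card {x // P'.Asks I x} ≤
        Nat.card ({b // P.Asks (fun b => (tab I b, I (b, 0))) b} × Word D m B) := by
      refine Nat.card_le_card_of_injective
        (fun x => (⟨x.1.1, h8.2 x.1 x.2⟩, x.1.2)) ?_
      intro x y hxy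
      rw [Prod.mk.injEq, Subtype.mk.injEq] at hxy
      exact Subtype.ext (Prod.ext hxy.1 hxy.2)
    refine h6.trans ?_
    rw [Nat.card_prod]
    exact Nat.mul_le_mul_right _ h7.2

end Pool.Agent.Helper60.NK
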